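import Pool.Agent.Helper81.LT.Mod

/-! Packet TSP (MP_c20641_lc): the definable universal ultrametric. -/

set_option autoImplicit false

namespace Pool.Agent.Helper69.LT

open Pool.Agent.Helper81.LT FirstOrder Language

attribute [local instance] stdStr

theorem tsp (ha : TSPA) (hb : TSPB) (hc : TSPC) : TSP := by
  intro Λ _ _ _ _ M _ _ _ _
  obtain ⟨c, hcinj⟩ := exists_injective_nat Λ
  obtain ⟨t, h1, h2, h3, h4, h5⟩ := ha Λ c hcinj M
  refine ⟨t, h1, h2, h3, h4, ?_, ?_⟩
  · intro x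
    have h6 : (fun v : Fin 2 → M => x ≤ t (v 0) (v 1)) =
        fun v : Fin 2 → M => Near c x (v 0) (v 1) := by
      funext v
      exact propext (h5 x (v 0) (v 1))
    rw [h6]
    exact hb Λ c M x
  · intro S hS
    obtain ⟨f, hf⟩ := hc Λ c hcinj M S hS
    refine ⟨f, fun a b => le_antisymm ?_ ?_⟩
    · exact (hf a b _).1 ((h5 _ _ _).1 le_rfl)
    · exact (h5 _ _ _).2 ((hf a b _).2 le_rfl)

end Pool.Agent.Helper69.LT
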